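import Pool.Agent.RSA.Defs

/-!
# Relative semi-ampleness: the construction

`W : X0³ + X1³ = Y0³ + Y1³` (variables `X 0, X 1, X 2, X 3` of `MvPolynomial (Fin 4) S`),
`Q_j = (1, -ω^j, 0, 0)`, `P_j(τ) = (τ ω^{-j}, -τ ω^{-j}, 1, -ω^j)`.
-/

namespace Pool.Agent.RSA

open MvPolynomial

/-- A primitive cube root of unity. -/
noncomputable def om : ℂ := ⟨-1 / 2, Real.sqrt 3 / 2⟩

theorem om_eq : om ^ 2 + om + 1 = 0 := by
  have h3 : Real.sqrt 3 * Real.sqrt 3 = 3 := Real.mul_self_sqrt (by norm_num)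
  apply Complex.ext
  · simp [om, pow_two, Complex.mul_re]
    nlinarith
  · simp [om, pow_two, Complex.mul_im]
    ring

theorem om_cube : om ^ 3 = 1 := by
  linear_combination (om - 1) * om_eq

section General

variable (S : Type) [CommRing S]

/-- Polynomials in the homogeneous coordinates of `ℙ³`. -/
abbrev A : Type := MvPolynomial (Fin 4) S

/-- Polynomials in the directions `(α, β)`. -/
abbrev U : Type := MvPolynomial (Fin 2) S

/-- The equation of the cubic surface `W`. -/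
noncomputable def G : A S := X 0 ^ 3 + X 1 ^ 3 - X 2 ^ 3 - X 3 ^ 3

/-- `ℓ = X0 + X1`. -/
noncomputable def ell : A S := X 0 + X 1

/-- `m = Y0 + Y1`. -/
noncomputable def emm : A S := X 2 + X 3

/-- `f(Y) = Y0³ + Y1³`. -/
noncomputable def fY : A S := X 2 ^ 3 + X 3 ^ 3

/-- `τ + εα`, where `ε = PowerSeries.X`. -/
noncomputable def px (τ : S) : PowerSeries (U S) :=
  PowerSeries.C (MvPolynomial.C τ) + PowerSeries.X * PowerSeries.C (X 0)

/-- `-τ + εβ`. -/
noncomputable def py (τ : S) : PowerSeries (U S) :=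
  -PowerSeries.C (MvPolynomial.C τ) + PowerSeries.X * PowerSeries.C (X 1)

/-- The cube root of `1 - (τ + εα)³ - (-τ + εβ)³` with constant term `1`. -/
noncomputable def eta (τ : S) : PowerSeries (U S) :=
  Classical.epsilon (fun e : PowerSeries (U S) =>
    PowerSeries.constantCoeff e = 1 ∧ e ^ 3 = 1 - (px S τ ^ 3 + py S τ ^ 3))

variable [Algebra ℂ S]

/-- `τ_j = ω^{-j} τ`. -/
noncomputable def tj (τ : S) (j : Fin 3) : S := algebraMap ℂ S (om ^ (2 * (j : ℕ))) * τ

/-- `ω^j` in `S`. -/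
noncomputable def oj (j : Fin 3) : S := algebraMap ℂ S (om ^ (j : ℕ))

/-- Expansion of a form at the point `P_j(τ)` of `W` (affine chart `Y0 = 1`) along
`X0 = τ_j + εα`, `X1 = -τ_j + εβ`. Order `≥ p` at `P_j(τ)` means divisibility by `ε^p`. -/
noncomputable def phi (τ : S) (j : Fin 3) : A S →ₐ[S] PowerSeries (U S) :=
  aeval ![px S (tj S τ j), py S (tj S τ j), 1,
    -(PowerSeries.C (MvPolynomial.C (oj S j)) * eta S (tj S τ j))]

/-- Restriction to the line `Λ_j : X1 = -X0, Y1 = -ω^j Y0` (coordinates `X0, Y0`). -/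
noncomputable def rho (j : Fin 3) : A S →ₐ[S] U S :=
  aeval ![X 0, -X 0, X 1, -(MvPolynomial.C (oj S j) * X 1)]

/-- Restriction to the line `X1 = -ω^j X0, Y1 = -Y0` (coordinates `X0, Y0`). -/
noncomputable def rho' (j : Fin 3) : A S →ₐ[S] U S :=
  aeval ![X 0, -(MvPolynomial.C (oj S j) * X 0), X 1, -X 1]

/-- Forms of degree `n`. -/
noncomputable def hom (n : ℕ) : Submodule S (A S) :=
  restrictSupport S {d : Fin 4 →₀ ℕ | d 0 + d 1 + d 2 + d 3 = n}

/-- Forms of degree `p + q`, of degree at least `q` in `Y0, Y1`. -/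
noncomputable def V (p q : ℕ) : Submodule S (A S) :=
  restrictSupport S {d : Fin 4 →₀ ℕ | d 0 + d 1 + d 2 + d 3 = p + q ∧ q ≤ d 2 + d 3}

/-- Forms of bidegree `(p - u, q - v)` (zero if `p < u` or `q < v`). -/
noncomputable def bih (p q u v : ℕ) : Submodule S (A S) :=
  restrictSupport S {d : Fin 4 →₀ ℕ | d 0 + d 1 + u = p ∧ d 2 + d 3 + v = q}

/-- The elements of `V p q` of order at least `p` at the three points `P_j(τ)`. -/
noncomputable def BB (τ : S) (p q : ℕ) : Submodule S (A S) where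
  carrier := {F | F ∈ V S p q ∧ ∀ j : Fin 3, (PowerSeries.X : PowerSeries (U S)) ^ p ∣ phi S τ j F}
  zero_mem' := ⟨Submodule.zero_mem _, fun j => by rw [map_zero]; exact dvd_zero _⟩
  add_mem' := fun ha hb => ⟨Submodule.add_mem _ ha.1 hb.1, fun j => by
    rw [map_add]; exact dvd_add (ha.2 j) (hb.2 j)⟩
  smul_mem' := fun c F hF => ⟨Submodule.smul_mem _ c hF.1, fun j => by
    rw [map_smul, Algebra.smul_def]; exact Dvd.dvd.mul_left (hF.2 j) _⟩

theorem mem_BB {τ : S} {p q : ℕ} {F : A S} : F ∈ BB S τ p q ↔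
    F ∈ V S p q ∧ ∀ j : Fin 3, (PowerSeries.X : PowerSeries (U S)) ^ p ∣ phi S τ j F := Iff.rfl

end General

/-- The base ring `ℂ⟦t⟧`; `t` is `PowerSeries.X`. -/
abbrev T : Type := PowerSeries ℂ

/-- Reduction modulo `t`. -/
noncomputable def redp : A T →+* A ℂ := MvPolynomial.map PowerSeries.constantCoeff

/-- `X_i ↦ x_i w'`, `Y_j ↦ y_j w`. -/
noncomputable def kap0 : A ℂ →ₐ[ℂ] K0 := aeval ![v 0 * w', v 1 * w', v 2 * w, v 3 * w]

section Model

variable {K : Type} [Field K] [Algebra T K] (κ : A T →ₐ[T] K)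

/-- `B p q`: sections of order at least `p` at the `P_j(t)` and at least `q` at the `Q_j`. -/
noncomputable def B (p q : ℕ) : Submodule T K := (BB T PowerSeries.X p q).map κ.toLinearMap

/-- Reduction modulo `t` on the range of `κ`. -/
noncomputable def red (z : K) : K0 := by
  classical
  exact if h : ∃ F : A T, κ F = z then kap0 (redp h.choose) else 0

/-- The reduction map `B p q → H p q`. -/
noncomputable def th (p q : ℕ) (z : K) : K0 := red κ z / (w' ^ p * w ^ q)

/-- The pair `(X_T, L_T)`. -/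
noncomputable def modelPair : GPair T K := ⟨fun n => B κ n n, fun n => B κ (n + 1) n⟩

end Model

end Pool.Agent.RSA
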