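import Mathlib

/-!
# Relative semi-ampleness: the definitions used in the statement

A projective integral scheme `X` over a ring `T` with an ample line bundle `M` and a line bundle
`L` is described by its homogeneous coordinate ring and a graded module, both realised in one
field `K`: `R n = H^0(X, nM)` and `N n = H^0(X, nM + L)` (for large `n`), as `T`-submodules of `K`.
`X = Proj (⊕ R n)`, `L` is the sheaf of the graded module `⊕ N n`.
-/

namespace Pool.Agent.RSA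

open Pointwise

/-- Graded pieces `R n` of a homogeneous coordinate ring and `N n` of a graded module over it,
all inside one field `K`. -/
structure GPair (T K : Type) [CommRing T] [Field K] [Algebra T K] where
  R : ℕ → Submodule T K
  N : ℕ → Submodule T K

namespace GPair

variable {T K : Type} [CommRing T] [Field K] [Algebra T K]

/-- The data are a polarised projective integral `T`-scheme `X = Proj (⊕ R n)` with `O(1)` ample
and invertible (`R` is generated in degree one from some degree on) and the graded module `⊕ N n`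
defines an invertible sheaf `L` (it has an inverse `N'`). -/
structure IsModel (P : GPair T K) : Prop where
  one_mem : (1 : K) ∈ P.R 0
  R_ne : P.R 1 ≠ ⊥
  R_mul : ∀ a b, P.R a * P.R b ≤ P.R (a + b)
  R_fg : ∀ n, (P.R n).FG
  R_gen : ∃ n₀, ∀ n ≥ n₀, P.R (n + 1) = P.R 1 * P.R n
  N_mul : ∀ a b, P.R a * P.N b ≤ P.N (a + b)
  N_fg : ∀ n, (P.N n).FG
  N_gen : ∃ n₀, ∀ n ≥ n₀, P.N (n + 1) = P.R 1 * P.N n
  N_inv : ∃ N' : ℕ → Submodule T K, (∀ a b, P.R a * N' b ≤ N' (a + b)) ∧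
    ∃ n₀, ∀ a ≥ n₀, ∀ b ≥ n₀, P.N a * N' b = P.R (a + b)

/-- The global sections of `L^m`: the `s` in `K` with `s R_(mn)` inside `(N_n)^m` for all large `n`
(for large `n`, `R_(mn)` and `(N_n)^m` are the sections of `O(mn)` and of `L^m(mn)`). -/
def sections (P : GPair T K) (m : ℕ) : Set K :=
  {s | ∃ n₀, ∀ n ≥ n₀, ∀ r ∈ P.R (m * n), s * r ∈ (P.N n) ^ m}

/-- `L` is semi-ample over `T`: for some `m ≥ 1` the sheaf `L^m` is generated by its global
sections. -/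
def SemiAmple (P : GPair T K) : Prop :=
  ∃ m : ℕ, 1 ≤ m ∧ ∃ n₀, ∀ n ≥ n₀,
    (P.N n) ^ m ≤ Submodule.span T (P.sections m) * P.R (m * n)

end GPair

/-- The pair `P` over `ℂ⟦t⟧` is a deformation of the pair `P₀` over `ℂ`: reduction maps
`θ n : R n → R₀ n`, `θL n : N n → N₀ n`, compatible with products and with `ℂ⟦t⟧ → ℂ`, surjective
and with kernel `t R n`, `t N n` (for `n ≥ 1`). As the modules `R n`, `N n` are torsion free over
the discrete valuation ring `ℂ⟦t⟧`, the family is flat. -/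
structure IsDeformation {K K₀ : Type} [Field K] [Field K₀] [Algebra (PowerSeries ℂ) K]
    [Algebra ℂ K₀] (P : GPair (PowerSeries ℂ) K) (P₀ : GPair ℂ K₀) (θ θL : ℕ → K → K₀) :
    Prop where
  faithful : Function.Injective (algebraMap (PowerSeries ℂ) K)
  one : θ 0 1 = 1
  R_add : ∀ n, ∀ r ∈ P.R n, ∀ r' ∈ P.R n, θ n (r + r') = θ n r + θ n r'
  R_smul : ∀ n, ∀ c : PowerSeries ℂ, ∀ r ∈ P.R n,
    θ n (c • r) = (PowerSeries.constantCoeff c) • θ n r
  R_mul : ∀ a b, ∀ r ∈ P.R a, ∀ r' ∈ P.R b, θ (a + b) (r * r') = θ a r * θ b r'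
  R_mem : ∀ n, ∀ r ∈ P.R n, θ n r ∈ P₀.R n
  R_surj : ∀ n, ∀ y ∈ P₀.R n, ∃ r ∈ P.R n, θ n r = y
  R_ker : ∀ n, ∀ r ∈ P.R n, θ n r = 0 → ∃ r' ∈ P.R n, r = (PowerSeries.X : PowerSeries ℂ) • r'
  N_add : ∀ n ≥ 1, ∀ r ∈ P.N n, ∀ r' ∈ P.N n, θL n (r + r') = θL n r + θL n r'
  N_smul : ∀ n ≥ 1, ∀ c : PowerSeries ℂ, ∀ r ∈ P.N n,
    θL n (c • r) = (PowerSeries.constantCoeff c) • θL n r
  N_mul : ∀ a, ∀ b ≥ 1, ∀ r ∈ P.R a, ∀ r' ∈ P.N b, θL (a + b) (r * r') = θ a r * θL b r'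
  N_mem : ∀ n ≥ 1, ∀ r ∈ P.N n, θL n r ∈ P₀.N n
  N_surj : ∀ n ≥ 1, ∀ y ∈ P₀.N n, ∃ r ∈ P.N n, θL n r = y
  N_ker : ∀ n ≥ 1, ∀ r ∈ P.N n, θL n r = 0 →
    ∃ r' ∈ P.N n, r = (PowerSeries.X : PowerSeries ℂ) • r'

/-- A field with four algebraically independent elements and all cube roots. -/
abbrev K0 : Type := AlgebraicClosure (FractionRing (MvPolynomial (Fin 4) ℂ))

/-- The four independent elements `x₀, x₁, y₀, y₁` of `K0`. -/
noncomputable def v (i : Fin 4) : K0 :=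
  algebraMap (FractionRing (MvPolynomial (Fin 4) ℂ)) K0
    (algebraMap (MvPolynomial (Fin 4) ℂ) (FractionRing (MvPolynomial (Fin 4) ℂ))
      (MvPolynomial.X i))

/-- A cube root in `K0`. -/
noncomputable def cbrt (a : K0) : K0 :=
  (IsAlgClosed.exists_pow_nat_eq a (n := 3) (by norm_num)).choose

theorem cbrt_pow (a : K0) : cbrt a ^ 3 = a :=
  (IsAlgClosed.exists_pow_nat_eq a (n := 3) (by norm_num)).choose_spec

/-- `w`, with `w ^ 3 = x₀ ^ 3 + x₁ ^ 3`. -/
noncomputable def w : K0 := cbrt (v 0 ^ 3 + v 1 ^ 3)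

/-- `w'`, with `w' ^ 3 = y₀ ^ 3 + y₁ ^ 3`. -/
noncomputable def w' : K0 := cbrt (v 2 ^ 3 + v 3 ^ 3)

/-- `H p q`: the `μ₃`-invariants of bidegree `(p, q)` in the bihomogeneous coordinate ring of
`E × E'`, where `E : w³ = x₀³ + x₁³`, `E' : w'³ = y₀³ + y₁³` and `ζ ∈ μ₃` acts by
`(w, w') ↦ (ζ w, ζ w')`: the span of the monomials
`x₀^i x₁^j w^c y₀^i' y₁^j' w'^c'` with `i+j+c = p`, `i'+j'+c' = q` and `3 ∣ c + c'`. -/
noncomputable def H (p q : ℕ) : Submodule ℂ K0 :=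
  Submodule.span ℂ {z | ∃ i j c i' j' c' : ℕ, i + j + c = p ∧ i' + j' + c' = q ∧ 3 ∣ c + c' ∧
    z = v 0 ^ i * v 1 ^ j * w ^ c * (v 2 ^ i' * v 3 ^ j' * w' ^ c')}

/-- The pair `(X₀, L₀)`: `X₀ = (E × E')/μ₃ = Proj (⊕ H n n)` and `L₀` the pull-back of `O(1)`
under `X₀ → E/μ₃ = ℙ¹`, `[x₀ : x₁]`. -/
noncomputable def quotientPair : GPair ℂ K0 := ⟨fun n => H n n, fun n => H (n + 1) n⟩

/-- The final statement: `(X₀, L₀)` is a projective pair with `L₀` semi-ample, and it has a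
deformation over `ℂ⟦t⟧` which is a projective pair for which all sections of all powers `L^m` are
the multiples `c s^m` of the powers of one section `s`, and `L` is not semi-ample over `ℂ⟦t⟧`. -/
def Statement : Prop :=
  quotientPair.IsModel ∧ quotientPair.SemiAmple ∧
  ∃ (K : Type) (_ : Field K) (_ : Algebra (PowerSeries ℂ) K) (P : GPair (PowerSeries ℂ) K)
    (θ θL : ℕ → K → K0), P.IsModel ∧ IsDeformation P quotientPair θ θL ∧
    (∃ s : K, s ≠ 0 ∧ (∀ n ≥ 1, ∀ r ∈ P.R n, θL n (s * r) = (v 0 + v 1) * θ n r) ∧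
      ∀ m ≥ 1, ∀ z : K, z ∈ P.sections m ↔ ∃ c : PowerSeries ℂ, z = c • s ^ m) ∧
    ¬ P.SemiAmple

end Pool.Agent.RSA
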