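import Pool.Agent.RSA.Core

/-!
# Relative semi-ampleness: targets of the jobs RSA-*
-/

namespace Pool.Agent.RSA

open MvPolynomial

/-- Cube roots of `1 - u` when 3 is invertible. -/
def T_CUBE : Prop := ∀ (D : Type) [CommRing D], IsUnit (3 : D) → ∀ u : PowerSeries D,
  PowerSeries.constantCoeff u = 0 → ∃ e : PowerSeries D, PowerSeries.constantCoeff e = 1 ∧
    e ^ 3 = 1 - u

def T_ETA : Prop := ∀ (S : Type) [CommRing S] [Algebra ℂ S] (τ : S),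
  PowerSeries.constantCoeff (eta S τ) = 1 ∧ eta S τ ^ 3 = 1 - (px S τ ^ 3 + py S τ ^ 3)

/-- Uniqueness of the cube root. -/
def T_UNIQ : Prop := ∀ (D : Type) [CommRing D] [IsDomain D], (3 : D) ≠ 0 →
  ∀ e e' : PowerSeries D, PowerSeries.constantCoeff e = 1 → PowerSeries.constantCoeff e' = 1 →
    e ^ 3 = e' ^ 3 → e = e'

def T_PHIG : Prop := ∀ (S : Type) [CommRing S] [Algebra ℂ S] (τ : S) (j : Fin 3),
  phi S τ j (G S) = 0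

/-- Homogeneity: the coefficient of `ε^i` is a form of degree `i` in the direction. -/
def T_HOM : Prop := ∀ (S : Type) [CommRing S] [Algebra ℂ S] (τ : S) (j : Fin 3) (F : A S)
  (i : ℕ), (PowerSeries.coeff i (phi S τ j F)).IsHomogeneous i

/-- Reduction modulo `t` of the expansions. -/
def T_COMP : Prop := ∀ (j : Fin 3) (F : A T),
  PowerSeries.map (MvPolynomial.map PowerSeries.constantCoeff)
    (phi T (PowerSeries.X : T) j F) = phi ℂ 0 j (redp F)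

/-- The jets of order `< p` at the three points `P_j(0)` are independent on `V p q`, `q ≥ 1`. -/
def T_SURJ0 : Prop := ∀ p q : ℕ, 1 ≤ q → ∀ h : Fin 3 → ℕ → U ℂ,
  (∀ j i, (h j i).IsHomogeneous i) →
    ∃ F ∈ V ℂ p q, ∀ j, ∀ i < p, PowerSeries.coeff i (phi ℂ 0 j F) = h j i

/-- Lifting from `t = 0`. -/
def T_LIFT : Prop := ∀ p q : ℕ, 1 ≤ q → ∀ F₀ ∈ BB ℂ 0 p q,
  ∃ F ∈ BB T (PowerSeries.X : T) p q, redp F = F₀

/-- Specialisation to `t = 0`. -/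
def T_SPEC : Prop := ∀ p q : ℕ, ∀ F ∈ BB T (PowerSeries.X : T) p q, redp F ∈ BB ℂ 0 p q

/-- Order at least `p` at the three points `P_j(0)`: the form is in `(X0, X1)^p` modulo `G`. -/
def T_DFT : Prop := ∀ (n p : ℕ), ∀ F ∈ hom ℂ n,
  (∀ j : Fin 3, (PowerSeries.X : PowerSeries (U ℂ)) ^ p ∣ phi ℂ 0 j F) →
    ∃ F₁ ∈ restrictSupport ℂ {d : Fin 4 →₀ ℕ | d 0 + d 1 + d 2 + d 3 = n ∧ p ≤ d 0 + d 1},
      G ℂ ∣ F - F₁

def T_TELE : Prop := ∀ (p q : ℕ), ∀ F ∈ V ℂ p q,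
  ∀ F₁ ∈ restrictSupport ℂ {d : Fin 4 →₀ ℕ | d 0 + d 1 + d 2 + d 3 = p + q ∧ p ≤ d 0 + d 1},
    G ℂ ∣ F - F₁ → ∃ P₁ ∈ bih ℂ p q 0 0, ∃ P₂ ∈ bih ℂ p q 1 2, ∃ P₃ ∈ bih ℂ p q 2 1,
      G ℂ ∣ F - (P₁ + fY ℂ * (P₂ + P₃))

/-- `κ₀` on bihomogeneous forms. -/
def T_K0 : Prop := ∀ (p q u r : ℕ), ∀ P ∈ bih ℂ p q u r,
  kap0 P * (w' ^ u * w ^ r) = w' ^ p * w ^ q * aeval v P

def T_HM1 : Prop := ∀ p q : ℕ, ∀ P₁ ∈ bih ℂ p q 0 0, ∀ P₂ ∈ bih ℂ p q 1 2, ∀ P₃ ∈ bih ℂ p q 2 1,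
  aeval v P₁ + aeval v P₂ * (w * w' ^ 2) + aeval v P₃ * (w ^ 2 * w') ∈ H p q

def T_HM2 : Prop := ∀ p q : ℕ, ∀ h ∈ H p q, ∃ P₁ ∈ bih ℂ p q 0 0, ∃ P₂ ∈ bih ℂ p q 1 2,
  ∃ P₃ ∈ bih ℂ p q 2 1,
    h = aeval v P₁ + aeval v P₂ * (w * w' ^ 2) + aeval v P₃ * (w ^ 2 * w')

def T_BB0 : Prop := ∀ p q : ℕ, ∀ P₁ ∈ bih ℂ p q 0 0, ∀ P₂ ∈ bih ℂ p q 1 2,
  ∀ P₃ ∈ bih ℂ p q 2 1, P₁ + fY ℂ * (P₂ + P₃) ∈ BB ℂ 0 p q

/-- `1, w w'^2, w^2 w'` are independent over `ℂ(x, y)`. -/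
def T_INDEP3 : Prop := ∀ P₁ P₂ P₃ : A ℂ,
  aeval v P₁ + aeval v P₂ * (w * w' ^ 2) + aeval v P₃ * (w ^ 2 * w') = 0 →
    P₁ = 0 ∧ P₂ = 0 ∧ P₃ = 0

/-- `w` and `w'` are not zero. -/
def T_W : Prop := w ≠ 0 ∧ w' ≠ 0

def T_KERT : Prop := ∀ p q : ℕ, ∀ F ∈ BB T (PowerSeries.X : T) p q, G ℂ ∣ redp F →
  ∃ F' ∈ BB T (PowerSeries.X : T) p q, ∃ C : A T, F = G T * C + (PowerSeries.X : T) • F'

def T_PRIME : Prop := Prime (G T)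

/-- A field with a homomorphism from the forms with kernel `(G)`. -/
def T_KAPPA : Prop := ∃ (K : Type) (_ : Field K) (_ : Algebra T K) (κ : A T →ₐ[T] K),
  ∀ F, κ F = 0 ↔ G T ∣ F

/-- Forms vanishing on the three lines of the plane `X0 + X1 = 0`. -/
def T_LINE : Prop := ∀ (n : ℕ), ∀ F ∈ hom T n, (∀ j : Fin 3, rho T j F = 0) →
  ∃ F' C : A T, F = ell T * F' + G T * C ∧ ∀ d ∈ F'.support, d 0 + d 1 + d 2 + d 3 + 1 = n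

/-- Forms vanishing on the three lines of the plane `Y0 + Y1 = 0`. -/
def T_LINE' : Prop := ∀ (n : ℕ), ∀ F ∈ hom T n, (∀ j : Fin 3, rho' T j F = 0) →
  ∃ F' C : A T, F = emm T * F' + G T * C ∧ ∀ d ∈ F'.support, d 0 + d 1 + d 2 + d 3 + 1 = n

section Kappa

variable {K : Type} [Field K] [Algebra T K] (κ : A T →ₐ[T] K)

def T_RED : Prop := ∀ F : A T, red κ (κ F) = kap0 (redp F)

def T_TH1 : Prop := ∀ p q : ℕ, ∀ z ∈ B κ p q, th κ p q z ∈ H p q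

def T_TH2 : Prop := ∀ p q : ℕ, (1 ≤ q ∨ p = 0) → ∀ h ∈ H p q, ∃ z ∈ B κ p q, th κ p q z = h

def T_TH3 : Prop := ∀ p q : ℕ, ∀ z ∈ B κ p q, th κ p q z = 0 →
  ∃ z' ∈ B κ p q, z = (PowerSeries.X : T) • z'

def T_BMUL : Prop := ∀ p q p' q' : ℕ, B κ p q * B κ p' q' ≤ B κ (p + p') (q + q')

def T_BFG : Prop := ∀ p q : ℕ, (B κ p q).FG

def T_BPROD : Prop := ∀ p q p' q' : ℕ, 1 ≤ q → 1 ≤ q' →
  H p q * H p' q' = H (p + p') (q + q') → B κ p q * B κ p' q' = B κ (p + p') (q + q')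

def T_SEC : Prop := ∀ (N m : ℕ) (s : K), 1 ≤ N → (∀ r ∈ B κ N N, s * r ∈ B κ (N + m) N) →
  ∃ F ∈ hom T m, κ F = s ∧
    ∀ j : Fin 3, (PowerSeries.X : PowerSeries (U T)) ^ m ∣ phi T (PowerSeries.X : T) j F

def T_ONE : Prop := ∀ (m : ℕ), ∀ F ∈ hom T m,
  (∀ j : Fin 3, (PowerSeries.X : PowerSeries (U T)) ^ m ∣ phi T (PowerSeries.X : T) j F) →
    ∃ c : T, κ F = c • κ (ell T) ^ m

def T_MODEL : Prop := (modelPair κ).IsModel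

def T_DEF : Prop := IsDeformation (modelPair κ) quotientPair (fun n => th κ n n)
  (fun n => th κ (n + 1) n)

def T_SECT : Prop := ∀ m ≥ 1, ∀ z : K, z ∈ (modelPair κ).sections m ↔
  ∃ c : T, z = c • κ (ell T) ^ m

def T_NOT : Prop := ¬ (modelPair κ).SemiAmple

end Kappa

def T_HPROD : Prop := ∀ p q p' q' : ℕ, 2 ≤ p → 2 ≤ q → H p q * H p' q' = H (p + p') (q + q')

def T_MODEL0 : Prop := quotientPair.IsModel

def T_SEMI0 : Prop := quotientPair.SemiAmple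

end Pool.Agent.RSA
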